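import Pool.Agent.helper14.XG.Spec

set_option autoImplicit false

namespace Pool.Agent.XG

open Finset Pool.Agent.XT

theorem HVW_card {n : ℕ} {B : FS n} {Nr : Fin n → Fin n → Prop}
    {F : Fin n → Fin n → Finset (VV n)} (hS : Sy B Nr F) (S : Finset (Fin n)) (x y : Fin n) :
    (S.filter (fun a => (Sum.inl a : VV n) ∈ F x y)).card ≤ 6000 := by
  refine le_trans ?_ (hS.fc x y)
  apply card_le_card_of_injOn (fun a => (Sum.inl a : VV n))
  · intro a ha
    rw [coe_filter] at ha
    exact ha.2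
  · intro a _ b _ h
    exact Sum.inl_injective h

theorem HVW_num (d M : ℝ) (hd : 0 ≤ d) (hM : M = 12003 * 24006 ^ 2) :
    d ^ 3 / 2 ≤ d ^ 3 - 12003 * d ^ 2 + M := by
  subst hM
  rcases le_total d 24006 with h | h
  · have h1 : d ^ 2 ≤ 24006 ^ 2 := pow_le_pow_left₀ hd h 2
    have h2 : 0 ≤ d ^ 3 := by positivity
    linarith
  · have h1 : 0 ≤ d ^ 2 * (d / 2 - 12003) := mul_nonneg (by positivity) (by linarith)
    have h2 : d ^ 2 * (d / 2 - 12003) = d ^ 3 / 2 - 12003 * d ^ 2 := by ring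
    rw [h2] at h1
    nlinarith

theorem HVW (_hBAS : BAS_stmt) (hHVA : HVA_stmt) : HVW_stmt := by
  classical
  intro ε hε
  set M : ℝ := 12003 * 24006 ^ 2 with hM
  refine ⟨2 * (6002 + M) / ε ^ 2, by positivity, ?_⟩
  intro n B Nr F hS W H hH
  set w : ℕ := W.card with hw
  -- the relation
  set R : Fin n × Fin n × Fin n → Fin n → Prop := fun x y =>
    (x.1, y) ∈ H ∧ (x.2.1, y) ∈ H ∧ (x.2.2, y) ∈ H ∧ x.1 ≠ x.2.1 ∧ x.1 ≠ x.2.2 ∧ x.2.1 ≠ x.2.2 ∧
      (Sum.inl x.1 : VV n) ∉ F x.2.2 y ∧ (Sum.inl x.2.1 : VV n) ∉ F x.2.2 y with hR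
  set S : Fin n → Finset (Fin n) := fun y => W.filter (fun x => (x, y) ∈ H) with hSd
  have hHcard : H.card = ∑ y ∈ W, (S y).card := by
    rw [card_eq_sum_card_fiberwise (f := Prod.snd) (t := W) (fun e he => (hH e he).2.1)]
    apply sum_congr rfl
    intro y hy
    refine card_bij' (fun e _ => e.1) (fun x _ => (x, y)) ?_ ?_ ?_ ?_
    · intro e he
      rw [mem_filter] at he
      rw [hSd]
      simp only [mem_filter]
      refine ⟨(hH e he.1).1, ?_⟩
      rw [← he.2]
      exact he.1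
    · intro x hx
      rw [hSd] at hx
      simp only [mem_filter] at hx
      rw [mem_filter]
      exact ⟨hx.2, rfl⟩
    · intro e he
      rw [mem_filter] at he
      rw [← he.2]
    · intro x hx
      rfl
  -- double counting
  have hdc : ∑ y ∈ W, ((W ×ˢ W ×ˢ W).filter (fun x => R x y)).card ≤ 6002 * w ^ 3 := by
    have e1 : ∑ y ∈ W, ((W ×ˢ W ×ˢ W).filter (fun x => R x y)).card =
        ∑ x ∈ W ×ˢ W ×ˢ W, (W.filter (fun y => R x y)).card := by
      simp only [card_filter]
      exact sum_comm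
    rw [e1]
    have e2 : ∀ x ∈ W ×ˢ W ×ˢ W, (W.filter (fun y => R x y)).card ≤ 6002 := by
      intro x _
      by_cases hx : x.1 ≠ x.2.1 ∧ x.1 ≠ x.2.2 ∧ x.2.1 ≠ x.2.2
      · apply hHVA n B Nr F hS ![x.1, x.2.1, x.2.2]
        · obtain ⟨h1, h2, h3⟩ := hx
          intro i j hij
          fin_cases i <;> fin_cases j <;> simp_all
        · intro y hy
          rw [mem_filter] at hy
          obtain ⟨-, h1, h2, h3, -, -, -, h4, h5⟩ := hy
          refine ⟨?_, by simpa using h4, by simpa using h5⟩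
          intro i
          fin_cases i
          · exact (hH _ h1).2.2
          · exact (hH _ h2).2.2
          · exact (hH _ h3).2.2
      · have : W.filter (fun y => R x y) = ∅ := by
          rw [filter_eq_empty_iff]
          intro y _ hy
          exact hx ⟨hy.2.2.2.1, hy.2.2.2.2.1, hy.2.2.2.2.2.1⟩
        rw [this]
        simp
    calc ∑ x ∈ W ×ˢ W ×ˢ W, (W.filter (fun y => R x y)).card
        ≤ ∑ x ∈ W ×ˢ W ×ˢ W, 6002 := sum_le_sum e2
      _ = 6002 * w ^ 3 := by
        rw [sum_const, card_product, card_product, smul_eq_mul]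
        ring
  -- lower bound for every y
  have hlow : ∀ y, (S y).card ^ 3 ≤
      ((W ×ˢ W ×ˢ W).filter (fun x => R x y)).card + 12003 * (S y).card ^ 2 := by
    intro y
    set d := (S y).card with hd
    set A1 := (S y ×ˢ S y).image (fun e => (e.1, e.1, e.2)) with hA1
    set A2 := (S y ×ˢ S y).image (fun e => (e.1, e.2, e.1)) with hA2
    set A3 := (S y ×ˢ S y).image (fun e => (e.2, e.1, e.1)) with hA3
    set B1 := (S y ×ˢ S y).biUnion (fun e =>
      ((S y).filter (fun a => (Sum.inl a : VV n) ∈ F e.2 y)).image (fun a => (a, e.1, e.2))) with hB1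
    set B2 := (S y ×ˢ S y).biUnion (fun e =>
      ((S y).filter (fun a => (Sum.inl a : VV n) ∈ F e.2 y)).image (fun a => (e.1, a, e.2))) with hB2
    have hsub : S y ×ˢ S y ×ˢ S y ⊆
        ((W ×ˢ W ×ˢ W).filter (fun x => R x y)) ∪ (A1 ∪ (A2 ∪ (A3 ∪ (B1 ∪ B2)))) := by
      rintro ⟨a, b, c⟩ hx
      simp only [mem_product] at hx
      obtain ⟨ha, hb, hc⟩ := hx
      have ha' := ha
      have hb' := hb
      have hc' := hc
      rw [hSd] at ha' hb' hc'
      simp only [mem_filter] at ha' hb' hc'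
      simp only [mem_union]
      by_cases h1 : a = b
      · right; left
        rw [hA1, mem_image]
        exact ⟨(a, c), by simp [ha, hc], by simp [h1]⟩
      by_cases h2 : a = c
      · right; right; left
        rw [hA2, mem_image]
        exact ⟨(a, b), by simp [ha, hb], by simp [h2]⟩
      by_cases h3 : b = c
      · right; right; right; left
        rw [hA3, mem_image]
        exact ⟨(b, a), by simp [ha, hb], by simp [h3]⟩
      by_cases h4 : (Sum.inl a : VV n) ∈ F c y
      · right; right; right; right; left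
        rw [hB1, mem_biUnion]
        refine ⟨(b, c), by simp [hb, hc], ?_⟩
        rw [mem_image]
        exact ⟨a, by simp only [mem_filter]; exact ⟨ha, h4⟩, rfl⟩
      by_cases h5 : (Sum.inl b : VV n) ∈ F c y
      · right; right; right; right; right
        rw [hB2, mem_biUnion]
        refine ⟨(a, c), by simp [ha, hc], ?_⟩
        rw [mem_image]
        exact ⟨b, by simp only [mem_filter]; exact ⟨hb, h5⟩, rfl⟩
      left
      rw [mem_filter]
      refine ⟨by simp [ha'.1, hb'.1, hc'.1], ha'.2, hb'.2, hc'.2, h1, h2, h3, h4, h5⟩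
    have hA1c : A1.card ≤ d ^ 2 := by
      refine card_image_le.trans ?_
      rw [card_product]
      exact le_of_eq (by ring)
    have hA2c : A2.card ≤ d ^ 2 := by
      refine card_image_le.trans ?_
      rw [card_product]
      exact le_of_eq (by ring)
    have hA3c : A3.card ≤ d ^ 2 := by
      refine card_image_le.trans ?_
      rw [card_product]
      exact le_of_eq (by ring)
    have hB1c : B1.card ≤ 6000 * d ^ 2 := by
      refine card_biUnion_le.trans ?_
      calc _ ≤ ∑ e ∈ S y ×ˢ S y, 6000 :=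
            sum_le_sum fun e _ => card_image_le.trans (HVW_card hS (S y) e.2 y)
        _ = 6000 * d ^ 2 := by
            rw [sum_const, card_product, smul_eq_mul]
            ring
    have hB2c : B2.card ≤ 6000 * d ^ 2 := by
      refine card_biUnion_le.trans ?_
      calc _ ≤ ∑ e ∈ S y ×ˢ S y, 6000 :=
            sum_le_sum fun e _ => card_image_le.trans (HVW_card hS (S y) e.2 y)
        _ = 6000 * d ^ 2 := by
            rw [sum_const, card_product, smul_eq_mul]
            ring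
    have hc := card_le_card hsub
    have u1 := card_union_le ((W ×ˢ W ×ˢ W).filter (fun x => R x y)) (A1 ∪ (A2 ∪ (A3 ∪ (B1 ∪ B2))))
    have u2 := card_union_le A1 (A2 ∪ (A3 ∪ (B1 ∪ B2)))
    have u3 := card_union_le A2 (A3 ∪ (B1 ∪ B2))
    have u4 := card_union_le A3 (B1 ∪ B2)
    have u5 := card_union_le B1 B2
    have hp : (S y ×ˢ S y ×ˢ S y).card = d ^ 3 := by
      rw [card_product, card_product]
      ring
    rw [hp] at hc
    omega
  rcases Nat.eq_zero_or_pos w with h0 | hpos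
  · have hW : W = ∅ := card_eq_zero.1 h0
    have hH0 : H = ∅ := by
      rw [eq_empty_iff_forall_notMem]
      intro e he
      have := (hH e he).1
      rw [hW] at this
      simp at this
    rw [hH0, h0]
    simp
  have hwr : (1 : ℝ) ≤ (w : ℝ) := by exact_mod_cast hpos
  have hpt : ∀ y ∈ W, ((S y).card : ℝ) ≤ ε * w + 2 / (ε ^ 2 * (w : ℝ) ^ 2) *
      ((((W ×ˢ W ×ˢ W).filter (fun x => R x y)).card : ℝ) + M) := by
    intro y _
    have h1 : ((S y).card : ℝ) ^ 3 ≤
        (((W ×ˢ W ×ˢ W).filter (fun x => R x y)).card : ℝ) + 12003 * ((S y).card : ℝ) ^ 2 := by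
      exact_mod_cast hlow y
    set d : ℝ := ((S y).card : ℝ) with hd
    have hd0 : 0 ≤ d := by positivity
    have h2 := HVW_num d M hd0 hM
    set T : ℝ := (((W ×ˢ W ×ˢ W).filter (fun x => R x y)).card : ℝ) with hT
    have h3 : d ^ 3 ≤ 2 * (T + M) := by linarith
    have hTM : 0 ≤ T + M := by positivity
    rcases le_or_gt d (ε * w) with h4 | h4
    · have : 0 ≤ 2 / (ε ^ 2 * (w : ℝ) ^ 2) * (T + M) := by positivity
      linarith
    · have h5 : 0 < ε * w := by positivity
      have h6 : (ε * w) ^ 2 ≤ d ^ 2 := pow_le_pow_left₀ h5.le h4.le 2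
      have h7 : d * (ε ^ 2 * (w : ℝ) ^ 2) ≤ 2 * (T + M) := by
        calc d * (ε ^ 2 * (w : ℝ) ^ 2) = d * (ε * w) ^ 2 := by ring
          _ ≤ d * d ^ 2 := mul_le_mul_of_nonneg_left h6 hd0
          _ = d ^ 3 := by ring
          _ ≤ _ := h3
      have h8 : 0 < ε ^ 2 * (w : ℝ) ^ 2 := by positivity
      have h9 : d ≤ 2 * (T + M) / (ε ^ 2 * (w : ℝ) ^ 2) := (le_div_iff₀ h8).2 h7
      have h10 : 2 / (ε ^ 2 * (w : ℝ) ^ 2) * (T + M) = 2 * (T + M) / (ε ^ 2 * (w : ℝ) ^ 2) := by
        ring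
      rw [h10]
      linarith
  have hsum : (H.card : ℝ) ≤ ∑ y ∈ W, (ε * w + 2 / (ε ^ 2 * (w : ℝ) ^ 2) *
      ((((W ×ˢ W ×ˢ W).filter (fun x => R x y)).card : ℝ) + M)) := by
    rw [hHcard]
    push_cast
    exact sum_le_sum hpt
  rw [sum_add_distrib, sum_const, ← mul_sum, sum_add_distrib, sum_const, nsmul_eq_mul,
    nsmul_eq_mul] at hsum
  have hdr : ∑ y ∈ W, (((W ×ˢ W ×ˢ W).filter (fun x => R x y)).card : ℝ) ≤ 6002 * (w : ℝ) ^ 3 := by
    exact_mod_cast hdc
  have hM0 : 0 ≤ M := by positivity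
  have hfin : 2 / (ε ^ 2 * (w : ℝ) ^ 2) *
      (∑ y ∈ W, (((W ×ˢ W ×ˢ W).filter (fun x => R x y)).card : ℝ) + (w : ℝ) * M) ≤
      2 * (6002 + M) / ε ^ 2 * w := by
    have h1 : ∑ y ∈ W, (((W ×ˢ W ×ˢ W).filter (fun x => R x y)).card : ℝ) + (w : ℝ) * M ≤
        (6002 + M) * (w : ℝ) ^ 3 := by
      have h2 : (w : ℝ) * M ≤ (w : ℝ) ^ 3 * M := by
        apply mul_le_mul_of_nonneg_right _ hM0
        nlinarith [sq_nonneg ((w : ℝ) - 1)]
      nlinarith
    calc _ ≤ 2 / (ε ^ 2 * (w : ℝ) ^ 2) * ((6002 + M) * (w : ℝ) ^ 3) :=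
          mul_le_mul_of_nonneg_left h1 (by positivity)
      _ = 2 * (6002 + M) / ε ^ 2 * w := by
          field_simp
  have e1 : (W.card : ℝ) * (ε * w) = ε * (W.card : ℝ) ^ 2 := by
    rw [hw]
    ring
  rw [e1] at hsum
  calc (H.card : ℝ) ≤ _ := hsum
    _ ≤ _ := by
      have : (W.card : ℝ) = (w : ℝ) := rfl
      rw [this]
      rw [this] at hsum
      linarith

end Pool.Agent.XG
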